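import Pool.Agent.H60.KSM.Defs

/-!
# One direction, with a set which is a function of the context
-/

set_option autoImplicit false

namespace Pool.KSM

open Finset Real
open Pool.Agent.H49.Ent Pool.Agent.H32.Dense Pool.STK Pool.KAF Pool.OC Pool.OC.RS Pool.KAL Pool.KX
open Pool.KS2 (rr tl)

/-- The data of one direction. -/
structure OD1 (m : ℕ) where
  Om : Type
  Lam : Type
  Lam' : Type
  Tau : Type
  Bet : Type
  Gam : Type
  [fin : Fintype Om]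
  P : Om → ℝ
  L : Om → Lam
  L' : Om → Lam'
  T : Om → Tau
  b : Om → Bet
  a : Om → Gam
  th : Om → ℝ
  N : Om → Fin m → ℤ
  k : Fin m
  X : ℕ
  G : Set Om
  G1 : Set Om

attribute [instance] OD1.fin

namespace OD1

variable {m : ℕ} (d : OD1 m)

/-- The first `i` digits of the time. -/
noncomputable def Ti (i : ℕ) (ω : d.Om) : ℤ := ⌊(2 : ℝ) ^ i * d.th ω⌋

/-- The probability that a second time of the window `i` is near the time of the sample. -/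
noncomputable def dead (k' i : ℕ) (ω : d.Om) : ℝ :=
  Pr (cond d.P (fun v => (d.L v, (d.b v, d.Ti i v))) (d.L ω, (d.b ω, d.Ti i ω)))
    {v | |d.th v - d.th ω| < (2 : ℝ) ^ (-((i : ℤ) + k'))}

/-- The basic assumptions. `G1` is a function of the context; the lines are only known for pairs
of samples in `G1` and in `G`. -/
structure OK (s : ℕ) : Prop where
  law : IsLaw d.P
  hab : Det d.P d.a d.b
  hth : Det d.P (fun ω => (d.T ω, d.b ω)) d.th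
  hG1 : ∀ ω ω', 0 < d.P ω → 0 < d.P ω' → d.a ω = d.a ω' → ω ∈ d.G1 → ω' ∈ d.G1
  h0 : ∀ ω ω', 0 < d.P ω → 0 < d.P ω' → ω ∈ d.G1 → ω ∈ d.G → ω' ∈ d.G → d.L ω = d.L ω' → d.a ω = d.a ω' →
    ∀ j, |(d.N ω' j : ℝ) - d.N ω j| ≤ 4 + 2 ^ d.X * |d.th ω' - d.th ω| / 2 ^ s
  hv : ∀ ω ω', 0 < d.P ω → 0 < d.P ω' → ω ∈ d.G1 → ω ∈ d.G → ω' ∈ d.G → d.L' ω = d.L' ω' → d.a ω = d.a ω' →
    ∀ j, |((d.N ω' j : ℝ) - d.N ω j) -
      2 ^ d.X * ((d.th ω' - d.th ω) * (Pi.single d.k 1 : Fin m → ℝ) j)| ≤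
      4 + 2 ^ d.X * |d.th ω' - d.th ω| / 2 ^ s

end OD1

/-- **The one-direction theorem**, with the set `G1`. -/
def ODT1Stmt : Prop :=
  ∀ (m k' : ℕ) (c ε : ℝ), 0 < c → 0 < ε → ∃ (δ : ℝ) (s X₀ K : ℕ), 0 < δ ∧ 1 ≤ K ∧ ∀ d : OD1 m,
    d.OK s → X₀ ≤ d.X → Pr d.P d.Gᶜ ≤ δ → mi d.P d.L d.T d.a ≤ δ * d.X →
    mi d.P d.L' d.T d.a ≤ δ * d.X →
    mi d.P d.T d.a (fun ω => (d.L ω, d.b ω)) ≤ δ * d.X → ∀ D : ℕ → Set d.Om,
    (∀ i ω, 0 < d.P ω → ω ∉ D i → d.dead k' i ω ≤ 1 - c) →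
    2 ^ d.X * (K * ((1 - ε - Pr d.P d.G1ᶜ) * d.X * Real.log 2 -
      Real.log 2 * ∑ i ∈ Finset.range d.X, Pr d.P (D i))) ≤
      rowSum d.P d.X d.N d.k K (fun ω => (d.T ω, d.a ω))

end Pool.KSM
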