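import Pool.Agent.H60.KSM.Lev
import Pool.Agent.H60.KSM1.Blk

/-!
# One level, with a set which is a function of the context
-/

set_option autoImplicit false

namespace Pool.KSM

open Finset Real
open Pool.Agent.H49.Ent Pool.Agent.H32.Dense Pool.STK Pool.KAF Pool.OC Pool.OC.RS Pool.KAL Pool.KX
open Pool.KS2 (rr tl EE ii ii_pos ii_neg ii_nonneg ii_le_one crs blk_live div_lo div_hi div_diff
  tl_near tl_diff div_size rr_up CH_mean)

variable {Ω : Type} {m : ℕ}

open Classical in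
/-- **One level.** -/
theorem level1 {Λ Λ' Γ β : Type} [Fintype Ω] {C₀ : ℝ} (hful : FulAt m C₀) {P : Ω → ℝ}
    (hP : IsLaw P)
    (a : Ω → Γ) (b : Ω → β) (hab : Det P a b) (th : Ω → ℝ)
    (N : Ω → Fin m → ℤ) (k : Fin m) (L₁ : Ω → Λ) (L₂ : Ω → Λ')
    (G G1 D : Set Ω) {X ℓ K k' s : ℕ} (hs : 6 * K ≤ s) (hk : k' ≤ 6 * K) (hℓ1 : 6 * K ≤ ℓ)
    (hℓ2 : ℓ + 7 * K ≤ X) (hKC : C₀ ≤ K * Real.log 2)
    (hG1 : ∀ ω ω', 0 < P ω → 0 < P ω' → a ω = a ω' → ω ∈ G1 → ω' ∈ G1)
    (h1 : ∀ ω ω', 0 < P ω → 0 < P ω' → ω ∈ G1 → ω ∈ G → ω' ∈ G → L₁ ω = L₁ ω' →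
      a ω = a ω' →
      ∀ j, |(N ω' j : ℝ) - N ω j| ≤ 4 + 2 ^ X * |th ω' - th ω| / 2 ^ s)
    (h2 : ∀ ω ω', 0 < P ω → 0 < P ω' → ω ∈ G1 → ω ∈ G → ω' ∈ G → L₂ ω = L₂ ω' →
      a ω = a ω' →
      ∀ j, |((N ω' j : ℝ) - N ω j) - 2 ^ X * ((th ω' - th ω) * (Pi.single k 1 : Fin m → ℝ) j)| ≤
        4 + 2 ^ X * |th ω' - th ω| / 2 ^ s)
    {a₀ i₀ i₁ cr c : ℝ} (ha₀ : 0 < a₀) (hc : 0 < c)
    (hi1 : mi P (tl th (ℓ + 7 * K)) L₁ (fun ω => (tl th ℓ ω, a ω)) ≤ i₀)
    (hi2 : mi P (tl th (ℓ + 7 * K)) L₂ (fun ω => (tl th ℓ ω, a ω)) ≤ i₀)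
    (hi3 : mi P (tl th (ℓ + 7 * K)) a (fun ω => (L₁ ω, (b ω, tl th ℓ ω))) ≤ i₁)
    (hc1 : EE P (fun ω => (L₁ ω, (tl th ℓ ω, a ω)))
      (fun ω v => ii (ω ∈ G1 ∧ row X N (ℓ - 6 * K) ω ≠ row X N (ℓ - 6 * K) v)) ≤ cr)
    (hc2 : EE P (fun ω => (L₂ ω, (tl th ℓ ω, a ω)))
      (fun ω v => ii (ω ∈ G1 ∧ row X N (ℓ - 6 * K) ω ≠ row X N (ℓ - 6 * K) v)) ≤ cr)
    (hD : ∀ ω, 0 < P ω → ω ∉ D →
      Pr (cond P (fun v => (L₁ v, (b v, tl th ℓ v))) (L₁ ω, (b ω, tl th ℓ ω)))
        {v | |th v - th ω| < (2 : ℝ) ^ (-((ℓ : ℤ) + k'))} ≤ 1 - c) :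
    (1 - Pr P G1ᶜ - Pr P D - (2 * (2 * (a₀ + i₀ / a₀) + cr + m * 8 / 2 ^ (6 * K) + 2 * Pr P Gᶜ) *
        (9 * 4 ^ (K + k')) + (a₀ + i₀ / a₀) + (a₀ + i₁ / a₀)) / c) * (K * Real.log 2 - C₀) ≤
      CH P (fun ω => row X N ℓ ω k) (fun ω => ((row X N (ℓ - K) ω k,
        fun j : {j : Fin m // j ≠ k} => row X N ℓ ω j),
        ((tl th (ℓ + 7 * K) ω, a ω), row X N (ℓ - 6 * K) ω))) := by
  have hp0 := hP.nonneg
  -- the labels
  set w : Ω → ℤ × Γ := fun ω => (tl th ℓ ω, a ω) with hw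
  set t : Ω → ℤ × Γ := fun ω => (tl th (ℓ + 7 * K) ω, a ω) with ht
  set C : Ω → Fin m → ℤ := row X N (ℓ - 6 * K) with hC
  set Y : Ω → Fin m → ℤ := row X N (ℓ + 6 * K) with hY
  set x : ℤ × Γ → ℤ × Γ → Fin m → ℤ :=
    fun t₁ t₂ => Pi.single k ((t₂.1 - t₁.1) / ((2 ^ K : ℕ) : ℤ)) with hx
  set lv : ℤ → ℤ → Prop := fun m m' => (2 : ℤ) ^ (6 * K - k') ≤ |(m' - m) / ((2 ^ K : ℕ) : ℤ)| ∧
    |(m' - m) / ((2 ^ K : ℕ) : ℤ)| ≤ 2 ^ (6 * K) with hlv
  set lv' : ℤ × Γ → ℤ × Γ → Prop := fun t₁ t₂ => lv t₁.1 t₂.1 with hlv'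
  set e : ℝ := 1 / (9 * 4 ^ (K + k')) with he
  have he0 : 0 < e := by positivity
  have hM : 0 < 2 ^ (6 * K) := by positivity
  -- the window is a function of the time
  have hfl : ∀ ω ω', tl th (ℓ + 7 * K) ω = tl th (ℓ + 7 * K) ω' → tl th ℓ ω = tl th ℓ ω' := by
    have key : ∀ ω, tl th ℓ ω = tl th (ℓ + 7 * K) ω / ((2 ^ (7 * K) : ℕ) : ℤ) := by
      intro ω
      unfold tl
      have h := Int.floor_div_natCast ((2 : ℝ) ^ (ℓ + 7 * K) * th ω) (2 ^ (7 * K))
      rw [← h]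
      congr 1
      push_cast
      rw [pow_add]
      field_simp
    intro ω ω' h
    rw [key, key, h]
  have hwt : Det P t w := fun ω ω' _ _ h => by
    have h' := Prod.ext_iff.mp h
    exact Prod.ext (hfl ω ω' h'.1) h'.2
  -- the displacements
  exact by
   have hDp : 0 < 2 ^ (X - (ℓ + 6 * K)) := by positivity
   have hDr : (0 : ℝ) < ((2 ^ (X - (ℓ + 6 * K)) : ℕ) : ℝ) := by exact_mod_cast hDp
   have hD1 : (1 : ℝ) ≤ ((2 ^ (X - (ℓ + 6 * K)) : ℕ) : ℝ) := by
     exact_mod_cast Nat.one_le_two_pow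
   have hXD : (2 : ℝ) ^ X = 2 ^ (ℓ + 6 * K) * ((2 ^ (X - (ℓ + 6 * K)) : ℕ) : ℝ) := by
     push_cast
     rw [← pow_add]
     congr 1
     omega
   have herr : ∀ {ω ω' : Ω}, w ω = w ω' →
       (4 + 2 ^ X * |th ω' - th ω| / 2 ^ s) / ((2 ^ (X - (ℓ + 6 * K)) : ℕ) : ℝ) ≤ 5 := by
     intro ω ω' hww
     have h3 := tl_near (Prod.ext_iff.mp hww).1
     rw [div_le_iff₀ hDr]
     have h4 : 2 ^ X * |th ω' - th ω| / 2 ^ s ≤ ((2 ^ (X - (ℓ + 6 * K)) : ℕ) : ℝ) := by
       rw [div_le_iff₀ (by positivity), hXD]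
       have h5 : (2 : ℝ) ^ (ℓ + 6 * K) * |th ω' - th ω| ≤ 2 ^ s := by
         calc (2 : ℝ) ^ (ℓ + 6 * K) * |th ω' - th ω| ≤ 2 ^ (ℓ + 6 * K) * (1 / 2 ^ ℓ) := by gcongr
           _ = 2 ^ (6 * K) := by
             rw [pow_add]
             field_simp
           _ ≤ 2 ^ s := pow_le_pow_right₀ (by norm_num) hs
       nlinarith only [h5]
     nlinarith only [hD1, h4]
   -- a row of a position which does not move
   have hstill : ∀ (Z : Ω → ℤ) {ω ω' : Ω}, w ω = w ω' →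
       |(Z ω' : ℝ) - Z ω| ≤ 4 + 2 ^ X * |th ω' - th ω| / 2 ^ s →
       |((rr X (ℓ + 6 * K) Z ω' - rr X (ℓ + 6 * K) Z ω : ℤ) : ℝ)| ≤ 8 := by
     intro Z ω ω' hww hz
     have h3 := div_diff (Z ω) (Z ω') hDp
     have h4 := herr hww
     have h5 : |((Z ω' : ℝ) - Z ω) / ((2 ^ (X - (ℓ + 6 * K)) : ℕ) : ℝ)| ≤ 5 := by
       rw [abs_div, abs_of_pos hDr]
       exact (div_le_div_of_nonneg_right hz hDr.le).trans h4
     unfold rr
     push_cast at h3 h5 ⊢
     rw [abs_lt] at h3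
     rw [abs_le] at h5 ⊢
     constructor <;> linarith only [h3, h5, h3.1, h3.2, h5.1, h5.2]
   exact by
    have H1 : ∀ ω ω', 0 < P ω → 0 < P ω' → ω ∈ G1 → ω ∈ G → ω' ∈ G → L₁ ω = L₁ ω' →
        w ω = w ω' →
        ∀ k, |((Y ω' k - Y ω k : ℤ) : ℝ)| ≤ 8 := by
      intro ω ω' k1 k2 k0 k3 k3' k4 k5 j
      exact hstill (fun ω => N ω j) k5 (h1 ω ω' k1 k2 k0 k3 k3' k4 (Prod.ext_iff.mp k5).2 j)
    have H2 : ∀ ω ω', 0 < P ω → 0 < P ω' → ω ∈ G1 → ω ∈ G → ω' ∈ G → L₂ ω = L₂ ω' →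
        w ω = w ω' →
        ∀ k, |((Y ω' k - (Y ω k + x (t ω) (t ω') k) : ℤ) : ℝ)| ≤ 8 := by
      intro ω ω' k1 k2 k0 k3 k3' k4 k5 j
      have g1 := h2 ω ω' k1 k2 k0 k3 k3' k4 (Prod.ext_iff.mp k5).2 j
      by_cases hjk : j = k
      · subst hjk
        rw [Pi.single_eq_same, mul_one] at g1
        have e0 : x (t ω) (t ω') j =
            (tl th (ℓ + 7 * K) ω' - tl th (ℓ + 7 * K) ω) / ((2 ^ K : ℕ) : ℤ) := by
          simp only [hx, Pi.single_eq_same, ht]
        rw [e0]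
        show |((rr X (ℓ + 6 * K) (fun ω => N ω j) ω' - (rr X (ℓ + 6 * K) (fun ω => N ω j) ω +
          (tl th (ℓ + 7 * K) ω' - tl th (ℓ + 7 * K) ω) / ((2 ^ K : ℕ) : ℤ)) : ℤ) : ℝ)| ≤ 8
        have q1 := div_diff (N ω j) (N ω' j) hDp
        have q2 := herr k5
        have q3 : |(((N ω' j : ℝ) - N ω j) - 2 ^ X * (th ω' - th ω)) /
            ((2 ^ (X - (ℓ + 6 * K)) : ℕ) : ℝ)| ≤ 5 := by
          rw [abs_div, abs_of_pos hDr]
          exact (div_le_div_of_nonneg_right g1 hDr.le).trans q2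
        have q4 : 2 ^ X * (th ω' - th ω) / ((2 ^ (X - (ℓ + 6 * K)) : ℕ) : ℝ) =
            2 ^ (ℓ + 6 * K) * (th ω' - th ω) := by
          rw [hXD]
          field_simp
        rw [sub_div, q4] at q3
        have hKp : 0 < 2 ^ K := by positivity
        have q5 := div_lo (tl th (ℓ + 7 * K) ω' - tl th (ℓ + 7 * K) ω) hKp
        have q6 := div_hi (tl th (ℓ + 7 * K) ω' - tl th (ℓ + 7 * K) ω) hKp
        have q7 := tl_diff th (ℓ + 7 * K) ω ω'
        have hKr : (0 : ℝ) < ((2 ^ K : ℕ) : ℝ) := by positivity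
        have hK1 : (1 : ℝ) ≤ ((2 ^ K : ℕ) : ℝ) := by exact_mod_cast Nat.one_le_two_pow
        have q8 : |((tl th (ℓ + 7 * K) ω' - tl th (ℓ + 7 * K) ω : ℤ) : ℝ) / ((2 ^ K : ℕ) : ℝ) -
            2 ^ (ℓ + 6 * K) * (th ω' - th ω)| ≤ 1 := by
          have e1 : (2 : ℝ) ^ (ℓ + 6 * K) * (th ω' - th ω) =
              2 ^ (ℓ + 7 * K) * (th ω' - th ω) / ((2 ^ K : ℕ) : ℝ) := by
            have e2 : (2 : ℝ) ^ (ℓ + 7 * K) = 2 ^ (ℓ + 6 * K) * ((2 ^ K : ℕ) : ℝ) := by
              push_cast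
              rw [← pow_add]
              congr 1
              omega
            rw [e2]
            field_simp
          rw [e1, ← sub_div, abs_div, abs_of_pos hKr, div_le_one hKr]
          exact q7.le.trans hK1
        unfold rr
        rw [abs_lt] at q1
        rw [abs_le] at q3 q8 ⊢
        push_cast at q1 q3 q5 q6 q8 ⊢
        constructor <;> linarith [q1.1, q1.2, q3.1, q3.2, q8.1, q8.2]
      · rw [Pi.single_eq_of_ne hjk, mul_zero, mul_zero, sub_zero] at g1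
        have e0 : x (t ω) (t ω') j = 0 := by
          simp only [hx, Pi.single_eq_of_ne hjk]
        rw [e0, add_zero]
        exact hstill (fun ω => N ω j) k5 g1
    -- the informations
    exact by
     have J1 : mi P t L₁ w ≤ i₀ := (mi_mono_left hp0 (tl th (ℓ + 7 * K)) t L₁ w
       (fun ω ω' _ _ h => Prod.ext (Prod.ext_iff.mp h).1
         (Prod.ext_iff.mp (Prod.ext_iff.mp h).2).2)).trans hi1
     have J2 : mi P t L₂ w ≤ i₀ := (mi_mono_left hp0 (tl th (ℓ + 7 * K)) t L₂ w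
       (fun ω ω' _ _ h => Prod.ext (Prod.ext_iff.mp h).1
         (Prod.ext_iff.mp (Prod.ext_iff.mp h).2).2)).trans hi2
     -- the bad samples
     have B1 := blk_two1 hP w t C Y L₁ L₂ hM (R := 8) ha₀ (by norm_num) he0 x G G1 lv' hwt
       (fun ω ω' k1 k2 k3 => hG1 ω ω' k1 k2 (Prod.ext_iff.mp k3).2) H1 H2
       hc1 hc2 J1 J2
     set B : Set Ω := G1 ∩ bad P t C Y (2 ^ (6 * K)) x lv' e with hB
     -- live times
     set Z : Ω → Λ × β × ℤ := fun ω => (L₁ ω, (b ω, tl th ℓ ω)) with hZ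
     have hlive : ∀ ω, 0 < P ω → ω ∉ D → c ≤ ∑ v, cond P Z (Z ω) v *
         ii (lv (tl th (ℓ + 7 * K) ω) (tl th (ℓ + 7 * K) v)) := by
       intro ω hω hωD
       have h3 := hD ω hω hωD
       have hq := isLaw_cond hP Z hω
       rw [Pool.KAF.Pr_eq] at h3
       have h4 := hq.sum_one
       have h5 : ∑ v, cond P Z (Z ω) v ≤ ∑ v, (if v ∈ {v | |th v - th ω| <
           (2 : ℝ) ^ (-((ℓ : ℤ) + k'))} then cond P Z (Z ω) v else 0) + ∑ v, cond P Z (Z ω) v *
         ii (lv (tl th (ℓ + 7 * K) ω) (tl th (ℓ + 7 * K) v)) := by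
         rw [← Finset.sum_add_distrib]
         refine Finset.sum_le_sum fun v _ => ?_
         rcases (cond_nonneg hp0 Z (Z ω) v).eq_or_lt with h0 | h0
         · rw [← h0]
           simp
         obtain ⟨k1, k2⟩ := (cond_pos_iff hp0 Z (Z ω) v).1 h0
         by_cases hnear : v ∈ {v | |th v - th ω| < (2 : ℝ) ^ (-((ℓ : ℤ) + k'))}
         · rw [if_pos hnear]
           have : 0 ≤ cond P Z (Z ω) v *
               ii (lv (tl th (ℓ + 7 * K) ω) (tl th (ℓ + 7 * K) v)) :=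
             mul_nonneg h0.le (ii_nonneg _)
           linarith only [this]
         · rw [if_neg hnear, zero_add]
           have hfar : (2 : ℝ) ^ (-((ℓ : ℤ) + k')) ≤ |th v - th ω| := not_lt.mp hnear
           have k3 : tl th ℓ ω = tl th ℓ v :=
             (Prod.ext_iff.mp (Prod.ext_iff.mp k2).2).2.symm
           have k4 := tl_near (th := th) k3
           have k5 := tl_diff th (ℓ + 7 * K) ω v
           -- the difference of the digits
           set z : ℤ := tl th (ℓ + 7 * K) v - tl th (ℓ + 7 * K) ω with hz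
           have m1 : (2 : ℤ) ^ ((6 * K - k') + K) ≤ |z| := by
             have e1 : (2 : ℝ) ^ (ℓ + 7 * K) * (2 : ℝ) ^ (-((ℓ : ℤ) + k')) =
                 2 ^ ((6 * K - k') + K) := by
               rw [← zpow_natCast (2 : ℝ) (ℓ + 7 * K), ← zpow_add₀ (by norm_num),
                 ← zpow_natCast (2 : ℝ) ((6 * K - k') + K)]
               congr 1
               push_cast [Nat.cast_sub hk]
               ring
             have e2 : (2 : ℝ) ^ ((6 * K - k') + K) - 1 < |(z : ℝ)| := by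
               have e3 := abs_sub_abs_le_abs_sub (2 ^ (ℓ + 7 * K) * (th v - th ω)) (z : ℝ)
               rw [abs_sub_comm] at e3
               have e4 : |2 ^ (ℓ + 7 * K) * (th v - th ω)| = 2 ^ (ℓ + 7 * K) * |th v - th ω| := by
                 rw [abs_mul, abs_of_pos (by positivity : (0 : ℝ) < 2 ^ (ℓ + 7 * K))]
               rw [e4] at e3
               have e5 : (2 : ℝ) ^ ((6 * K - k') + K) ≤ 2 ^ (ℓ + 7 * K) * |th v - th ω| := by
                 rw [← e1]
                 gcongr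
               linarith only [k5, e3, e5]
             have e3 : (2 : ℤ) ^ ((6 * K - k') + K) - 1 < |z| := by
               have e4 : (((2 : ℤ) ^ ((6 * K - k') + K) - 1 : ℤ) : ℝ) < ((|z| : ℤ) : ℝ) := by
                 push_cast
                 exact e2
               exact_mod_cast e4
             omega
           have m2 : |z| ≤ (2 : ℤ) ^ (6 * K + K) := by
             have e1 : |(z : ℝ)| < (2 : ℝ) ^ (6 * K + K) + 1 := by
               have e3 := abs_sub_abs_le_abs_sub (z : ℝ) (2 ^ (ℓ + 7 * K) * (th v - th ω))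
               have e4 : |2 ^ (ℓ + 7 * K) * (th v - th ω)| = 2 ^ (ℓ + 7 * K) * |th v - th ω| := by
                 rw [abs_mul, abs_of_pos (by positivity : (0 : ℝ) < 2 ^ (ℓ + 7 * K))]
               have e5 : (2 : ℝ) ^ (ℓ + 7 * K) * |th v - th ω| ≤ 2 ^ (6 * K + K) := by
                 calc (2 : ℝ) ^ (ℓ + 7 * K) * |th v - th ω| ≤ 2 ^ (ℓ + 7 * K) * (1 / 2 ^ ℓ) := by
                       gcongr
                   _ = 2 ^ (6 * K + K) := by
                     rw [pow_add, show 6 * K + K = 7 * K by ring]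
                     field_simp
               rw [e4] at e3
               linarith only [k5, e3, e5]
             have e3 : |z| < (2 : ℤ) ^ (6 * K + K) + 1 := by
               have e4 : ((|z| : ℤ) : ℝ) < (((2 : ℤ) ^ (6 * K + K) + 1 : ℤ) : ℝ) := by
                 push_cast
                 exact e1
               exact_mod_cast e4
             omega
           have hl : lv (tl th (ℓ + 7 * K) ω) (tl th (ℓ + 7 * K) v) := div_size m1 m2
           rw [ii_pos hl, mul_one]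
       linarith only [h3, h4, h5]
     exact by
      have hd1 : Det P (fun ω => (L₁ ω, w ω)) (fun ω => (a ω, Z ω)) := by
        intro ω ω' k1 k2 h
        have h' := Prod.ext_iff.mp h
        have h'' := Prod.ext_iff.mp h'.2
        exact Prod.ext h''.2 (Prod.ext h'.1 (Prod.ext (hab ω ω' k1 k2 h''.2) h''.1))
      have hd2 : Det P (fun ω => (a ω, Z ω)) (fun ω => (L₁ ω, w ω)) := by
        intro ω ω' k1 k2 h
        have h' := Prod.ext_iff.mp h
        have h'' := Prod.ext_iff.mp h'.2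
        exact Prod.ext h''.1 (Prod.ext (Prod.ext_iff.mp h''.2).2 h'.1)
      have B2 := blk_live hP w (tl th (ℓ + 7 * K)) L₁ a Z ha₀ hc.le lv B D hd1 hd2 hi1 hi3 hlive
      have B3 : Pr P B ≤ Pr P D + (2 * (2 * (a₀ + i₀ / a₀) + cr + m * 8 / 2 ^ (6 * K) + 2 * Pr P Gᶜ) *
            (9 * 4 ^ (K + k')) + (a₀ + i₀ / a₀) + (a₀ + i₁ / a₀)) / c := by
        have e1 : EE P w (fun ω v => ii (ω ∈ B ∧ lv (tl th (ℓ + 7 * K) ω) (tl th (ℓ + 7 * K) v))) ≤
            2 * (2 * (a₀ + i₀ / a₀) + cr + m * 8 / 2 ^ (6 * K) + 2 * Pr P Gᶜ) * (9 * 4 ^ (K + k')) := by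
          have e2 : EE P w (fun ω v => ii (ω ∈ B ∧ lv (tl th (ℓ + 7 * K) ω) (tl th (ℓ + 7 * K) v))) =
              (9 * 4 ^ (K + k')) * (e * EE P w (fun ω v => ii (ω ∈ B ∧ lv' (t ω) (t v)))) := by
            rw [he]
            field_simp
            rfl
          rw [e2, mul_comm]
          refine mul_le_mul_of_nonneg_right ?_ (by positivity)
          refine B1.trans (le_of_eq ?_)
          push_cast
          ring
        have e3 : (Pr P B - Pr P D) ≤ (2 * (2 * (a₀ + i₀ / a₀) + cr + m * 8 / 2 ^ (6 * K) + 2 * Pr P Gᶜ) *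
            (9 * 4 ^ (K + k')) + (a₀ + i₀ / a₀) + (a₀ + i₁ / a₀)) / c := by
          rw [le_div_iff₀ hc]
          linarith only [B2, e1]
        linarith only [e3]
      -- the entropy
      exact by
       set V : Ω → (ℤ × Γ) × (Fin m → ℤ) := fun ω => (t ω, C ω) with hV
       have hgood : ∀ ω, 0 < P ω → ω ∈ G1 → ω ∉ B → K * Real.log 2 - C₀ ≤
           CH (cond P V (V ω)) (fun ω => row X N ℓ ω k) (fun ω => (row X N (ℓ - K) ω k,
             fun j : {j : Fin m // j ≠ k} => row X N ℓ ω j)) := by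
         intro ω hω hωG hωB
         have hex : ∃ s, lv' (t ω) s ∧ TIV (smp m (2 ^ (6 * K)) (cond P V (V ω)))
             (smX (N := 2 ^ (6 * K)) Y) (fun _ => ()) (x (t ω) s) e := by
           by_contra hcon
           push Not at hcon
           exact hωB ⟨hωG, hcon⟩
         obtain ⟨s', hs1, hs2⟩ := hex
         have h3 := hful Ω (cond P V (V ω)) Y k (6 * K)
           (6 * K - k') K ((s'.1 - (t ω).1) / ((2 ^ K : ℕ) : ℤ)) e (isLaw_cond hP V hω) hs1.1 hs1.2
           he0.le (by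
             rw [show 6 * K + K - (6 * K - k') = K + k' by omega, he]
             field_simp
             exact le_rfl) hs2
         refine h3.trans (le_of_eq ?_)
         have r1 : ∀ ω j, Y ω j / ((2 ^ (6 * K) : ℕ) : ℤ) = row X N ℓ ω j := fun ω j =>
           rr_up (by omega) (fun ω => N ω j) ω
         have r3 : ∀ ω, Y ω k / ((2 ^ (6 * K + K) : ℕ) : ℤ) = row X N (ℓ - K) ω k := by
           intro ω
           have := rr_up (X := X) (r := ℓ - K) (s := 6 * K + K) (by omega) (fun ω => N ω k) ω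
           rw [show ℓ - K + (6 * K + K) = ℓ + 6 * K by omega] at this
           exact this
         simp only [r1, r3]
       have hmean := CH_mean hp0 (fun ω => row X N ℓ ω k) (fun ω => (row X N (ℓ - K) ω k,
         fun j : {j : Fin m // j ≠ k} => row X N ℓ ω j)) V
       show _ ≤ CH P (fun ω => row X N ℓ ω k) (fun ω => ((row X N (ℓ - K) ω k,
         fun j : {j : Fin m // j ≠ k} => row X N ℓ ω j), V ω))
       exact by
        rw [hmean]
        have hkc : 0 ≤ K * Real.log 2 - C₀ := by linarith only [hKC]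
        have hsum : (1 - Pr P G1ᶜ - Pr P B) * (K * Real.log 2 - C₀) ≤
            ∑ ω, P ω * CH (cond P V (V ω)) (fun ω => row X N ℓ ω k) (fun ω => (row X N (ℓ - K) ω k,
              fun j : {j : Fin m // j ≠ k} => row X N ℓ ω j)) := by
          have e1 : (1 - Pr P G1ᶜ - Pr P B) = ∑ ω, (P ω - (if ω ∈ G1ᶜ then P ω else 0) -
              (if ω ∈ B then P ω else 0)) := by
            rw [Finset.sum_sub_distrib, Finset.sum_sub_distrib, hP.sum_one, Pool.KAF.Pr_eq,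
              Pool.KAF.Pr_eq]
          rw [e1, Finset.sum_mul]
          refine Finset.sum_le_sum fun ω _ => ?_
          rcases (hp0 ω).eq_or_lt with h0 | h0
          · rw [← h0]
            simp
          have hCH : 0 ≤ CH (cond P V (V ω)) (fun ω => row X N ℓ ω k) (fun ω => (row X N (ℓ - K) ω k,
              fun j : {j : Fin m // j ≠ k} => row X N ℓ ω j)) :=
            CH_nonneg (isLaw_cond hP V h0).nonneg _ _
          by_cases c1 : ω ∈ G1ᶜ
          · rw [if_pos c1, sub_self, zero_sub]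
            have n1 : 0 ≤ (if ω ∈ B then P ω else 0) := by
              split_ifs
              · exact h0.le
              · exact le_rfl
            have n2 : -(if ω ∈ B then P ω else 0) * (K * Real.log 2 - C₀) ≤ 0 :=
              mul_nonpos_of_nonpos_of_nonneg (by linarith only [n1]) hkc
            exact n2.trans (mul_nonneg h0.le hCH)
          · rw [if_neg c1, sub_zero]
            by_cases c2 : ω ∈ B
            · rw [if_pos c2, sub_self, zero_mul]
              exact mul_nonneg h0.le hCH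
            · rw [if_neg c2, sub_zero]
              exact mul_le_mul_of_nonneg_left (hgood ω h0 (not_not.mp c1) c2) h0.le
        exact by
         refine le_trans (mul_le_mul_of_nonneg_right ?_ hkc) hsum
         linarith only [B3]

end Pool.KSM
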