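import Pool.Agent.H60.KSM.Cross
import Pool.Agent.H60.KSM1.Lev

/-!
# The mean over the shifts, with a set which is a function of the context
-/

set_option autoImplicit false

namespace Pool.KSM

open Finset Real
open Pool.Agent.H49.Ent Pool.Agent.H32.Dense Pool.STK Pool.KAF Pool.OC Pool.OC.RS Pool.KAL Pool.KX
open Pool.KS2 (rr tl EE EE_swap EE_mono EE_add EE_const EE_left EE_le_add
  ii ii_pos ii_neg ii_nonneg ii_le_one near_bdry tl_near)

section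

variable {Ω W ι : Type} [Fintype Ω] {m : ℕ}

/-- Different cells of the rows `ℓ - 6 K`. -/
theorem cross_row1 {Λ Γ : Type} {P : Ω → ℝ} (hP : IsLaw P) (L : Ω → Λ) (a : Ω → Γ) (th : Ω → ℝ)
    (N : Ω → Fin m → ℤ) (G G1 : Set Ω) {X K ℓ s : ℕ} (hK : 1 ≤ K) (h6 : 6 * K ≤ ℓ)
    (h7 : ℓ + 7 * K ≤ X) (β : Fin m → ℝ) (hβ : ∀ j, |β j| ≤ 1)
    (hG1 : ∀ ω ω', 0 < P ω → 0 < P ω' → a ω = a ω' → ω ∈ G1 → ω' ∈ G1)
    (hz : ∀ ω, ω ∉ G1 → N ω = 0)
    (h : ∀ ω ω', 0 < P ω → 0 < P ω' → ω ∈ G1 → ω ∈ G → ω' ∈ G → L ω = L ω' → a ω = a ω' → ∀ j,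
      |((N ω' j : ℝ) - N ω j) - 2 ^ X * ((th ω' - th ω) * β j)| ≤
        4 + 2 ^ X * |th ω' - th ω| / 2 ^ s) :
    ∑ u ∈ range (2 ^ X), EE P (fun ω => (L ω, (tl th ℓ ω, a ω)))
      (fun ω v => ii (ω ∈ G1 ∧ rw X N u (ℓ - 6 * K) ω ≠ rw X N u (ℓ - 6 * K) v)) ≤
      2 ^ X * (m * (8 / 2 ^ (6 * K)) + 2 * Pr P Gᶜ) := by
  obtain ⟨Ξ, hΞ⟩ : ∃ Ξ, Ξ = X - (ℓ - 6 * K) := ⟨_, rfl⟩
  have hratio : (2 : ℝ) * ((2 ^ (X - ℓ + 2) : ℕ) : ℝ) / 2 ^ Ξ = 8 / 2 ^ (6 * K) := by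
    have e1 : Ξ = (X - ℓ) + 6 * K := by omega
    rw [e1, pow_add (2 : ℝ) (X - ℓ) (6 * K)]
    push_cast
    rw [pow_add]
    field_simp
    ring
  have key := cross hP (fun ω => (L ω, (tl th ℓ ω, a ω))) N G (X := X) (Ξ := Ξ)
    (Lc := 2 ^ (X - ℓ + 2)) (by omega) (by
      intro ω v hω hv hωG hvG hb j
      have hL : L ω = L v := (Prod.ext_iff.mp hb).1
      have htl : tl th ℓ ω = tl th ℓ v := (Prod.ext_iff.mp (Prod.ext_iff.mp hb).2).1
      have hav : a ω = a v := (Prod.ext_iff.mp (Prod.ext_iff.mp hb).2).2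
      by_cases hωG1 : ω ∈ G1
      swap
      · have hvG1 : v ∉ G1 := fun hc => hωG1 (hG1 v ω hv hω hav.symm hc)
        rw [hz ω hωG1, hz v hvG1, sub_self, abs_zero]
        positivity
      have h1 := h ω v hω hv hωG1 hωG hvG hL hav j
      have h2 := tl_near (th := th) htl
      have hX : (0 : ℝ) < 2 ^ X := by positivity
      have h4 : (2 : ℝ) ^ X * |th v - th ω| ≤ 2 ^ (X - ℓ) := by
        have e1 : (2 : ℝ) ^ X = 2 ^ (X - ℓ) * 2 ^ ℓ := by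
          rw [← pow_add]
          congr 1
          omega
        rw [e1, mul_assoc]
        have h5 : (2 : ℝ) ^ ℓ * |th v - th ω| ≤ 1 := by
          calc (2 : ℝ) ^ ℓ * |th v - th ω| ≤ 2 ^ ℓ * (1 / 2 ^ ℓ) :=
                mul_le_mul_of_nonneg_left h2 (by positivity)
            _ = 1 := by field_simp
        calc (2 : ℝ) ^ (X - ℓ) * (2 ^ ℓ * |th v - th ω|) ≤ 2 ^ (X - ℓ) * 1 :=
              mul_le_mul_of_nonneg_left h5 (by positivity)
          _ = 2 ^ (X - ℓ) := mul_one _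
      have h5 : |(2 : ℝ) ^ X * ((th v - th ω) * β j)| ≤ 2 ^ (X - ℓ) := by
        rw [abs_mul, abs_mul, abs_of_pos hX, ← mul_assoc]
        calc (2 : ℝ) ^ X * |th v - th ω| * |β j| ≤
              2 ^ X * |th v - th ω| * 1 :=
              mul_le_mul_of_nonneg_left (hβ j) (by positivity)
          _ ≤ 2 ^ (X - ℓ) := by rw [mul_one]; exact h4
      have h6' : (2 : ℝ) ^ X * |th v - th ω| / 2 ^ s ≤ 2 ^ (X - ℓ) := by
        rw [div_le_iff₀ (by positivity)]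
        have h8 : (1 : ℝ) ≤ 2 ^ s := one_le_pow₀ (by norm_num)
        nlinarith [show (0 : ℝ) < 2 ^ (X - ℓ) by positivity]
      have h9 : (4 : ℝ) ≤ 2 * 2 ^ (X - ℓ) := by
        have h10 : (2 : ℝ) ^ 1 ≤ 2 ^ (X - ℓ) :=
          pow_le_pow_right₀ (by norm_num) (by omega)
        linarith
      have h10 : |(N v j : ℝ) - N ω j| ≤ 4 * 2 ^ (X - ℓ) := by
        have h11 := abs_sub_abs_le_abs_sub ((N v j : ℝ) - N ω j)
          (2 ^ X * ((th v - th ω) * β j))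
        linarith
      have h11 : ((|N v j - N ω j| : ℤ) : ℝ) ≤ ((2 ^ (X - ℓ + 2) : ℕ) : ℝ) := by
        push_cast
        rw [pow_add]
        linarith
      exact_mod_cast h11)
  rw [hratio] at key
  subst hΞ
  refine (Finset.sum_le_sum fun u _ => EE_mono hP.nonneg _ fun ω v _ _ _ => ?_).trans key
  by_cases hne : rw X N u (ℓ - 6 * K) ω ≠ rw X N u (ℓ - 6 * K) v
  · refine (ii_le_one _).trans (le_of_eq ?_)
    exact (ii_pos hne).symm
  · rw [ii_neg (fun h => hne h.2)]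
    exact ii_nonneg _

end

end Pool.KSM
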