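import Pool.Agent.H60.KSM.Sum
import Pool.Agent.H60.KSM1.Cross
import Pool.Agent.H60.KSM1.Defs

/-!
# The one-direction theorem, with a set which is a function of the context
-/

set_option autoImplicit false

namespace Pool.KSM

open Finset Real
open Pool.Agent.H49.Ent Pool.Agent.H32.Dense Pool.STK Pool.KAF Pool.OC Pool.OC.RS Pool.KAL Pool.KX
open Pool.KS2 (rr tl EE ii ii_nonneg rr_up tsum tl_down budget dsum)
open Pool.KS2.CD (EE_nonneg)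

namespace OD1

variable {m : ℕ} (d : OD1 m)

/-- The time of a level, with the context. -/
noncomputable def tim (K ℓ : ℕ) (ω : d.Om) : ℤ × d.Gam := (tl d.th (ℓ + 7 * K) ω, d.a ω)

/-- The informations of the lines. -/
noncomputable def i0 (K ℓ : ℕ) : ℝ :=
  mi d.P (tl d.th (ℓ + 7 * K)) d.L (fun ω => (tl d.th ℓ ω, d.a ω)) +
    mi d.P (tl d.th (ℓ + 7 * K)) d.L' (fun ω => (tl d.th ℓ ω, d.a ω))

/-- The informations of the context. -/
noncomputable def i1 (K ℓ : ℕ) : ℝ :=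
  mi d.P (tl d.th (ℓ + 7 * K)) d.a (fun ω => (tl d.th ℓ ω, (d.L ω, d.b ω)))

/-- The pairs with different cells. -/
noncomputable def cr (K : ℕ) (u : ℤ) (ℓ : ℕ) : ℝ :=
  EE d.P (fun ω => (d.L ω, (tl d.th ℓ ω, d.a ω)))
      (fun ω v => ii (ω ∈ d.G1 ∧ rw d.X d.N u (ℓ - 6 * K) ω ≠ rw d.X d.N u (ℓ - 6 * K) v)) +
    EE d.P (fun ω => (d.L' ω, (tl d.th ℓ ω, d.a ω)))
      (fun ω v => ii (ω ∈ d.G1 ∧ rw d.X d.N u (ℓ - 6 * K) ω ≠ rw d.X d.N u (ℓ - 6 * K) v))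

/-- The error of a level. -/
noncomputable def er (K k' : ℕ) (a₀ c cr : ℝ) (ℓ : ℕ) : ℝ :=
  (2 * (2 * (a₀ + d.i0 K ℓ / a₀) + cr + m * 8 / 2 ^ (6 * K) + 2 * Pr d.P d.Gᶜ) *
    (9 * 4 ^ (K + k')) + (a₀ + d.i0 K ℓ / a₀) + (a₀ + d.i1 K ℓ / a₀)) / c

variable {d}

theorem OK.hthr {s : ℕ} (h : d.OK s) (r : ℕ) : Det d.P (fun ω => (d.T ω, d.b ω)) (tl d.th r) :=
  fun ω ω' a b hh => by
    have := h.hth ω ω' a b hh
    unfold tl
    rw [this]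

/-- **One level.** -/
theorem OK.lev {C₀ : ℝ} (hful : FulAt m C₀) {s : ℕ} (h : d.OK s) (u : ℤ) {K k' ℓ : ℕ}
    (hs : 6 * K ≤ s) (hk : k' ≤ 6 * K) (hℓ1 : 6 * K ≤ ℓ) (hℓ2 : ℓ + K + 7 * K ≤ d.X)
    (hKC : C₀ ≤ K * Real.log 2) {a₀ c : ℝ} (ha₀ : 0 < a₀) (hc : 0 < c) (D : Set d.Om)
    (hD : ∀ ω, 0 < d.P ω → ω ∉ D → d.dead k' (ℓ + K) ω ≤ 1 - c) :
    (1 - Pr d.P d.G1ᶜ - Pr d.P D - d.er K k' a₀ c (d.cr K u (ℓ + K)) (ℓ + K)) *
      (K * Real.log 2 - C₀) ≤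
      CH d.P (fun ω => rw d.X d.N u (ℓ + K) ω d.k) (ctx d.X d.N d.k K (d.tim K (ℓ + K)) u ℓ) := by
  have hp0 := h.law.nonneg
  have n1 := mi_nonneg hp0 (tl d.th (ℓ + K + 7 * K)) d.L (fun ω => (tl d.th (ℓ + K) ω, d.a ω))
  have n2 := mi_nonneg hp0 (tl d.th (ℓ + K + 7 * K)) d.L' (fun ω => (tl d.th (ℓ + K) ω, d.a ω))
  have n3 := EE_nonneg hp0 (fun ω => (d.L ω, (tl d.th (ℓ + K) ω, d.a ω))) (h := fun ω v =>
    ii (ω ∈ d.G1 ∧ rw d.X d.N u (ℓ + K - 6 * K) ω ≠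
      rw d.X d.N u (ℓ + K - 6 * K) v)) fun _ _ => ii_nonneg _
  have n4 := EE_nonneg hp0 (fun ω => (d.L' ω, (tl d.th (ℓ + K) ω, d.a ω))) (h := fun ω v =>
    ii (ω ∈ d.G1 ∧ rw d.X d.N u (ℓ + K - 6 * K) ω ≠
      rw d.X d.N u (ℓ + K - 6 * K) v)) fun _ _ => ii_nonneg _
  have i3 : mi d.P (tl d.th (ℓ + K + 7 * K)) d.a
      (fun ω => (d.L ω, (d.b ω, tl d.th (ℓ + K) ω))) ≤ d.i1 K (ℓ + K) := by
    refine le_of_eq ?_
    unfold i1
    refine mi_congr hp0 _ _ ?_ ?_ <;>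
    · intro ω ω' _ _ hh
      simp only [Prod.mk.injEq] at hh ⊢
      tauto
  have A := level1 hful h.law d.a d.b h.hab d.th (fun ω j => d.N ω j + u) d.k d.L d.L' d.G d.G1 D
    hs hk (by omega : 6 * K ≤ ℓ + K) hℓ2 hKC h.hG1
    (fun ω ω' a1 a2 b1 a3 a3' a4 a5 j => by
      have := h.h0 ω ω' a1 a2 b1 a3 a3' a4 a5 j
      push_cast
      rwa [add_sub_add_right_eq_sub])
    (fun ω ω' a1 a2 b1 a3 a3' a4 a5 j => by
      have := h.hv ω ω' a1 a2 b1 a3 a3' a4 a5 j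
      push_cast
      rwa [add_sub_add_right_eq_sub])
    ha₀ hc (i₀ := d.i0 K (ℓ + K)) (i₁ := d.i1 K (ℓ + K)) (cr := d.cr K u (ℓ + K))
    (by unfold i0; linarith) (by unfold i0; linarith) i3
    (le_add_of_nonneg_right n4) (le_add_of_nonneg_left n3) hD
  refine A.trans ?_
  have e : ℓ + K - K = ℓ := by omega
  rw [e]
  exact CH_mono_cond hp0 fun ω ω' _ _ hh => by
    have h1 := Prod.ext_iff.mp hh
    exact Prod.ext h1.1 (Prod.ext_iff.mp h1.2).1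

/-- The mean of the pairs with different cells. -/
theorem OK.crs {s : ℕ} (h : d.OK s) (hz : ∀ ω, ω ∉ d.G1 → d.N ω = 0) {K ℓ : ℕ} (hK : 1 ≤ K) (h6 : 6 * K ≤ ℓ)
    (h7 : ℓ + 7 * K ≤ d.X) :
    ∑ u ∈ range (2 ^ d.X), d.cr K u ℓ ≤ 2 ^ d.X * (16 * m / 2 ^ (6 * K) + 4 * Pr d.P d.Gᶜ) := by
  have c1 := cross_row1 h.law d.L d.a d.th d.N d.G d.G1 (s := s) hK h6 h7 (fun _ => 0)
    (fun _ => by rw [abs_zero]; exact zero_le_one) h.hG1 hz
    (fun ω ω' a1 a2 b1 a3 a3' a4 a5 j => by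
      rw [mul_zero, mul_zero, sub_zero]
      exact h.h0 ω ω' a1 a2 b1 a3 a3' a4 a5 j)
  have c2 := cross_row1 h.law d.L' d.a d.th d.N d.G d.G1 (s := s) hK h6 h7 (Pi.single d.k 1 : Fin m → ℝ)
    (fun j => by
      by_cases hj : j = d.k
      · rw [hj, Pi.single_eq_same, abs_one]
      · rw [Pi.single_eq_of_ne hj, abs_zero]
        exact zero_le_one) h.hG1 hz h.hv
  have e1 : ∑ u ∈ range (2 ^ d.X), d.cr K u ℓ =
      ∑ u ∈ range (2 ^ d.X), EE d.P (fun ω => (d.L ω, (tl d.th ℓ ω, d.a ω)))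
        (fun ω v => ii (ω ∈ d.G1 ∧ rw d.X d.N u (ℓ - 6 * K) ω ≠ rw d.X d.N u (ℓ - 6 * K) v)) +
      ∑ u ∈ range (2 ^ d.X), EE d.P (fun ω => (d.L' ω, (tl d.th ℓ ω, d.a ω)))
        (fun ω v => ii (ω ∈ d.G1 ∧ rw d.X d.N u (ℓ - 6 * K) ω ≠ rw d.X d.N u (ℓ - 6 * K) v)) := by
    rw [← Finset.sum_add_distrib]
    rfl
  have e2 : (2 : ℝ) ^ d.X * (16 * m / 2 ^ (6 * K) + 4 * Pr d.P d.Gᶜ) =
      2 ^ d.X * (m * (8 / 2 ^ (6 * K)) + 2 * Pr d.P d.Gᶜ) +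
      2 ^ d.X * (m * (8 / 2 ^ (6 * K)) + 2 * Pr d.P d.Gᶜ) := by ring
  rw [e1, e2]
  exact add_le_add c1 c2

/-- The full time, one class of levels. -/
theorem OK.full {s : ℕ} (h : d.OK s) (hz : ∀ ω, ω ∉ d.G ∩ d.G1 → d.N ω = 0) (u : ℤ)
    {K n r : ℕ} {η : ℝ}
    (hK : 1 ≤ K) (hr : r < K) (hn : n * K + 14 * K ≤ d.X) (hT : mi d.P d.L d.T d.a ≤ η) :
    ∑ j ∈ range n, CH d.P (fun ω => rw d.X d.N u (6 * K + (r + j * K) + K) ω d.k)
        (ctx d.X d.N d.k K (d.tim K (6 * K + (r + j * K) + K)) u (6 * K + (r + j * K))) ≤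
      ∑ j ∈ range n, CH d.P (fun ω => rw d.X d.N u (6 * K + (r + j * K) + K) ω d.k)
        (ctx d.X d.N d.k K (fun ω => (d.T ω, d.a ω)) u (6 * K + (r + j * K))) +
        (η + (n + 1) * ((m + 1) * Real.log 3)) := by
  have hp0 := h.law.nonneg
  obtain ⟨f, hf⟩ : ∃ f : ℕ → ℕ, ∀ j, f j = 6 * K + (r + j * K) := ⟨_, fun _ => rfl⟩
  have hfs : ∀ j, f (j + 1) = f j + K := fun j => by
    rw [hf, hf]
    ring
  have hfX : ∀ j ≤ n, f j + 7 * K ≤ d.X := by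
    intro j hj
    rw [hf]
    have : j * K ≤ n * K := Nat.mul_le_mul_right K hj
    omega
  have hfX' : ∀ j < n, f j + K ≤ d.X := by
    intro j hj
    have := hfX (j + 1) hj
    rw [hfs] at this
    omega
  simp only [← hf]
  have hdown : ∀ j < n, ∀ i ω ω', rw d.X d.N u (f j + K) ω i = rw d.X d.N u (f j + K) ω' i →
      rw d.X d.N u (f j) ω i = rw d.X d.N u (f j) ω' i := by
    intro j hj i ω ω' e
    rw [← rw_up d.N u (hfX' j hj) ω i, ← rw_up d.N u (hfX' j hj) ω' i, e]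
  have key := fullT hp0 (fun j => rw d.X d.N u (f j))
    (fun j ω => rw d.X d.N u (f j + K) ω d.k)
    (fun j ω => (rw d.X d.N u (f j) ω d.k,
      fun i : {i : Fin m // i ≠ d.k} => rw d.X d.N u (f j + K) ω i))
    (fun j => d.tim K (f j)) (fun ω => (d.T ω, d.a ω)) d.L (R := (m + 1) * Real.log 3) n
    (fun j hj ω ω' _ _ e => by
      have e' : rw d.X d.N u (f j + K) ω = rw d.X d.N u (f j + K) ω' := by
        have : rw d.X d.N u (f (j + 1)) ω = rw d.X d.N u (f (j + 1)) ω' := e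
        rwa [hfs] at this
      funext i
      exact hdown j hj i ω ω' (congrFun e' i))
    (fun j hj ω ω' _ _ e => by
      have e' : rw d.X d.N u (f (j + 1)) ω = rw d.X d.N u (f (j + 1)) ω' := e
      rw [hfs] at e'
      exact congrFun e' d.k)
    (fun j hj ω ω' _ _ e => by
      have e' : rw d.X d.N u (f (j + 1)) ω = rw d.X d.N u (f (j + 1)) ω' := e
      rw [hfs] at e'
      refine Prod.ext (hdown j hj d.k ω ω' (congrFun e' d.k)) ?_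
      funext i
      exact congrFun e' i)
    (fun j hj ω ω' _ _ e => by
      have e1 := Prod.ext_iff.mp e
      funext i
      by_cases hi : i = d.k
      · rw [hi]
        exact e1.1
      · exact hdown j hj i ω ω' (congrFun e1.2 ⟨i, hi⟩))
    (fun j hj ω ω' _ _ e => by
      have e1 := Prod.ext_iff.mp e
      show rw d.X d.N u (f (j + 1)) ω = rw d.X d.N u (f (j + 1)) ω'
      rw [hfs]
      funext i
      by_cases hi : i = d.k
      · rw [hi]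
        exact e1.1
      · exact congrFun (Prod.ext_iff.mp e1.2).2 ⟨i, hi⟩)
    (fun j hj ω ω' a1 a2 e => by
      have e1 := Prod.ext_iff.mp e
      have e2 : d.b ω = d.b ω' := h.hab ω ω' a1 a2 e1.2
      exact Prod.ext (h.hthr _ ω ω' a1 a2 (Prod.ext e1.1 e2)) e1.2)
    (fun j hj => rowL h.law d.L d.a d.th d.N (d.G ∩ d.G1) (s := s) hK (hfX j hj)
      (fun ω ω' a1 a2 a3 a4 a5 a6 => h.h0 ω ω' a1 a2 a3.2 a3.1 a4.1 a5 a6) hz u)
  have a4 := tsum hp0 (fun j => tl d.th (f j + 7 * K)) d.T d.L d.a n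
    (fun i ω ω' _ _ e => by
      have e1 : tl d.th (f (i + 1) + 7 * K) ω = tl d.th (f (i + 1) + 7 * K) ω' :=
        (Prod.ext_iff.mp e).1
      have e0 : f (i + 1) + 7 * K = f i + 7 * K + K := by rw [hfs]; ring
      rw [e0] at e1
      show tl d.th (f i + 7 * K) ω = tl d.th (f i + 7 * K) ω'
      rw [tl_down d.th _ K ω, tl_down d.th _ K ω', e1])
    (fun ω ω' x y hh => h.hthr _ ω ω' x y
      (Prod.ext (Prod.ext_iff.mp hh).1 (h.hab ω ω' x y (Prod.ext_iff.mp hh).2)))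
  have a5 := hT
  rw [mi_comm hp0] at a5
  have a6 : ∑ j ∈ range n, mi d.P (d.tim K (f (j + 1))) d.L (d.tim K (f j)) +
      mi d.P (fun ω => (d.T ω, d.a ω)) d.L (d.tim K (f n)) ≤ η := a4.trans a5
  have e1 : ∀ j, CH d.P (fun ω => rw d.X d.N u (f j + K) ω d.k)
      (ctx d.X d.N d.k K (d.tim K (f j + K)) u (f j)) =
      CH d.P (fun ω => rw d.X d.N u (f j + K) ω d.k) (fun ω => ((rw d.X d.N u (f j) ω d.k,
      fun i : {i : Fin m // i ≠ d.k} => rw d.X d.N u (f j + K) ω i), d.tim K (f (j + 1)) ω)) := by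
    intro j
    rw [hfs]
    rfl
  rw [Finset.sum_congr rfl fun j _ => e1 j]
  refine key.trans ?_
  have e2 : ∑ j ∈ range n, CH d.P (fun ω => rw d.X d.N u (f j + K) ω d.k)
      (fun ω => ((rw d.X d.N u (f j) ω d.k,
      fun i : {i : Fin m // i ≠ d.k} => rw d.X d.N u (f j + K) ω i), (d.T ω, d.a ω))) =
      ∑ j ∈ range n, CH d.P (fun ω => rw d.X d.N u (f j + K) ω d.k)
        (ctx d.X d.N d.k K (fun ω => (d.T ω, d.a ω)) u (f j)) := rfl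
  rw [← e2]
  linarith

end OD1

end Pool.KSM
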